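import Pool.Agent.H27.L1.H34.GZ.Targets2
import Pool.Agent.H27.L1.H34.GM.POI

/-!
# Board gz (MP_52e316_nt), row POZ: Poisson summation over the integer matrices
-/

set_option autoImplicit false

namespace Pool.Agent.H27.L1.H43.GZ

open MeasureTheory Set Pool.Agent.H27.L1.H34.GM Pool.Agent.H27.L1.H34.GZ

open scoped FourierTransform SchwartzMap ContDiff

/-- the standard basis of the real matrices -/
noncomputable def sb (m : ℕ) : Module.Basis (Fin m × Fin m) ℝ (Mat m) :=
  Matrix.stdBasis ℝ (Fin m) (Fin m)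

theorem sb_apply (m : ℕ) (k : Fin m × Fin m) (i j : Fin m) :
    sb m k i j = if k.1 = i ∧ k.2 = j then 1 else 0 := by
  rw [sb, show k = (k.1, k.2) from rfl, Matrix.stdBasis_eq_single, Matrix.single_apply]

theorem sb_covol (m : ℕ) : covol (sb m) = 1 := by
  have : (Matrix.of fun (i j : Fin m × Fin m) => (sb m i) j.1 j.2) = 1 := by
    ext i j
    rw [Matrix.of_apply, sb_apply, Matrix.one_apply]
    simp only [Prod.ext_iff]
  rw [covol, this, Matrix.det_one, abs_one]

theorem sb_sum (m : ℕ) (x : Fin m × Fin m → ℝ) :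
    ∑ k, x k • sb m k = Matrix.of fun i j => x (i, j) := by
  ext i j
  rw [Matrix.sum_apply, Matrix.of_apply, Finset.sum_eq_single (i, j)]
  · rw [Matrix.smul_apply, sb_apply, if_pos ⟨rfl, rfl⟩, smul_eq_mul, mul_one]
  · intro k _ hk
    rw [Matrix.smul_apply, sb_apply, if_neg, smul_zero]
    rintro ⟨h1, h2⟩
    exact hk (Prod.ext h1 h2)
  · intro h
    exact absurd (Finset.mem_univ _) h

theorem sb_trace (m : ℕ) (β : Mat m) (k : Fin m × Fin m) : (β * sb m k).trace = β k.2 k.1 := by
  rw [Matrix.trace]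
  simp only [Matrix.diag_apply, Matrix.mul_apply, sb_apply]
  rw [Finset.sum_eq_single k.2]
  · rw [Finset.sum_eq_single k.1]
    · simp
    · intro l _ hl
      rw [if_neg, mul_zero]
      rintro ⟨h1, -⟩
      exact hl h1.symm
    · intro h
      exact absurd (Finset.mem_univ _) h
  · intro i _ hi
    refine Finset.sum_eq_zero fun l _ => ?_
    rw [if_neg, mul_zero]
    rintro ⟨-, h2⟩
    exact hi h2.symm
  · intro h
    exact absurd (Finset.mem_univ _) h

theorem cR_trace {m : ℕ} (β α : ZM m) : (cR β * cR α).trace = (((β * α).trace : ℤ) : ℝ) := by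
  simp only [Matrix.trace, Matrix.diag_apply, Matrix.mul_apply, cR, Matrix.map_apply]
  push_cast
  rfl

open Classical in
theorem pf_POZ : T_ALZ → T_PSZ → T_POZ := by
  intro hA hP m q _ hm hq2 Φ hΦS g h r c hg hh hr
  obtain ⟨-, ⟨-, -, hQm, hQs, hQk⟩, -, -, -, -, -⟩ := hA m q hm hq2
  obtain ⟨hPe, -, -, hPn, -, -, -, -⟩ := hP m q hm hq2
  have hΦ := hΦS.smooth
  have hΦc := hΦS.comp
  have hq : (q : ℝ) ≠ 0 := by
    exact_mod_cast (by omega : q ≠ 0)
  have hq0 : (0 : ℝ) < q := lt_of_le_of_ne (Nat.cast_nonneg _) (Ne.symm hq)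
  obtain ⟨a0, ha0⟩ := hQs c
  set α0 : Mat m := cR a0 with hα0
  set κ : ℝ := r⁻¹ * aN h / aN g with hκ
  have haN : ∀ z : Mat m, z.det ≠ 0 → 0 < aN z := by
    intro z hz
    have := abs_pos.2 hz
    unfold aN
    positivity
  have hκ0 : 0 < κ := by
    have := haN h hh
    have := haN g hg
    positivity
  set M := poi_M (sb m) (κ * q) h⁻¹ g with hM
  have hdet : |M.det| = (q : ℝ) ^ (m ^ 2) / r ^ (m ^ 2) := by
    rw [hM, hκ, poi_det (sb m) q g h r hm hg hh hr, sb_covol, one_mul]
  have hdet0 : 0 < |M.det| := by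
    rw [hdet]
    positivity
  have hdet1 : M.det ≠ 0 := abs_pos.1 hdet0
  let cur : (Fin m × Fin m → ℝ) → V m := fun x i j => x (i, j)
  let y0 : Fin m × Fin m → ℝ := fun p => (κ • (h⁻¹ * α0 * g)) p.1 p.2
  let L : (Fin m × Fin m → ℝ) → Mat m := fun x => ∑ k, x k • sb m k
  let Z : (Fin m × Fin m → ℝ) → Mat m := fun x => κ • (h⁻¹ * (α0 + (q : ℝ) • L x) * g)
  have hZ : ∀ x, Z x = mt (cur (y0 + M.mulVec x)) := by
    intro x
    ext i j
    exact poi_M_apply (sb m) κ q h⁻¹ g α0 x i j
  -- the curried function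
  let F1 : (Fin m × Fin m → ℝ) → ℂ := fun y => Φ (mt (cur y))
  let curL : (Fin m × Fin m → ℝ) ≃L[ℝ] V m := LinearEquiv.toContinuousLinearEquiv
    { toFun := fun x i j => x (i, j)
      invFun := fun z p => z p.1 p.2
      left_inv := fun x => rfl
      right_inv := fun z => rfl
      map_add' := fun x y => rfl
      map_smul' := fun c x => rfl }
  have hF1s : ContDiff ℝ ∞ F1 := hΦ.comp curL.contDiff
  have hF1c : HasCompactSupport F1 := hΦc.comp_homeomorph curL.toHomeomorph
  -- the function for Poisson summation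
  let f : (Fin m × Fin m → ℝ) → ℂ := fun x => F1 (y0 + M.mulVec x)
  let ML : (Fin m × Fin m → ℝ) ≃L[ℝ] (Fin m × Fin m → ℝ) :=
    (M.toLinearEquiv' (M.invertibleOfIsUnitDet hdet1.isUnit)).toContinuousLinearEquiv
  have hfs : ContDiff ℝ ∞ f := hF1s.comp (contDiff_const.add ML.contDiff)
  have hfc : HasCompactSupport f :=
    hF1c.comp_homeomorph (ML.toHomeomorph.trans (Homeomorph.addLeft y0))
  have hft : ∀ x, f x = Φ (Z x) := fun x => by
    change Φ (mt (cur (y0 + M.mulVec x))) = _
    rw [hZ]
  -- the Fourier coefficients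
  let w : Mat m → Mat m := fun β => kk ((q : ℝ) / r) g β h
  have hphase : ∀ (β : Mat m) (x : Fin m × Fin m → ℝ), (w β * Z x).trace =
      (β * α0).trace / q + (β * L x).trace := by
    intro β x
    have hgu : g * g⁻¹ = 1 := Matrix.mul_nonsing_inv _ hg.isUnit
    have hhu : h * h⁻¹ = 1 := Matrix.mul_nonsing_inv _ hh.isUnit
    have e1 : w β = (κ⁻¹ / q) • (g⁻¹ * β * h) := by
      have := (haN h hh).ne'
      have := (haN g hg).ne'
      simp only [w, kk, hκ]
      congr 1
      field_simp
    have e2 : w β * Z x = (q : ℝ)⁻¹ • (g⁻¹ * (β * (α0 + (q : ℝ) • L x)) * g) := by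
      rw [e1]
      simp only [Z]
      rw [smul_mul_smul_comm]
      congr 1
      · field_simp
      · calc g⁻¹ * β * h * (h⁻¹ * (α0 + (q : ℝ) • L x) * g) =
            g⁻¹ * β * (h * h⁻¹) * (α0 + (q : ℝ) • L x) * g := by noncomm_ring
          _ = _ := by rw [hhu, mul_one, mul_assoc g⁻¹ β]
    rw [e2, Matrix.trace_smul, Matrix.trace_mul_comm, ← mul_assoc, hgu, one_mul, mul_add,
      Matrix.trace_add, mul_smul_comm, Matrix.trace_smul, smul_eq_mul, smul_eq_mul]
    field_simp
  have hee : ∀ x y : ℝ, ee (x + y) = ee x * ee y := by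
    intro x y
    simp only [ee]
    rw [← Complex.exp_add]
    congr 1
    push_cast
    ring
  have hFT : ∀ β : Mat m, ft Φ (w β) = ∫ y : Fin m × Fin m → ℝ,
      F1 y * ee (-(w β * mt (cur y)).trace) := by
    intro β
    rw [ft, ← (poi_curry m).integral_comp curL.toHomeomorph.measurableEmbedding]
  have hcoef : ∀ β : Mat m, ∫ x : Fin m × Fin m → ℝ,
      Complex.exp (-(2 * Real.pi * (∑ k, (β * sb m k).trace * x k) : ℝ) * Complex.I) * f x =
      ee ((β * α0).trace / q) * ((|M.det|⁻¹ : ℝ) * ft Φ (w β)) := by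
    intro β
    let H : (Fin m × Fin m → ℝ) → ℂ := fun y =>
      F1 (y0 + y) * ee (-(w β * mt (cur (y0 + y))).trace)
    have hHi : Integrable H := by
      have h4 : Continuous (fun y : Fin m × Fin m → ℝ => F1 (y0 + y)) :=
        hF1s.continuous.comp (continuous_const.add continuous_id)
      have h5 : HasCompactSupport (fun y : Fin m × Fin m → ℝ => F1 (y0 + y)) :=
        hF1c.comp_homeomorph (Homeomorph.addLeft y0)
      have h6 : Continuous (fun y : Fin m × Fin m → ℝ =>
          ee (-(w β * mt (cur (y0 + y))).trace)) := by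
        simp only [ee, Matrix.trace, Matrix.diag_apply, Matrix.mul_apply, Matrix.of_apply, cur,
          Pi.add_apply]
        fun_prop
      exact (h4.mul h6).integrable_of_hasCompactSupport h5.mul_right
    have h1 := (Pool.Agent.H27.L1.H3.HK.subst M hdet1 H hHi).2
    have h2 : ∫ y, H y = ft Φ (w β) := by
      rw [hFT]
      exact integral_add_left_eq_self (μ := (volume : Measure (Fin m × Fin m → ℝ)))
        (fun y => F1 y * ee (-(w β * mt (cur y)).trace)) y0
    rw [h2] at h1
    rw [← h1, ← integral_const_mul]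
    refine integral_congr_ae (Filter.Eventually.of_forall fun x => ?_)
    change _ = ee ((β * α0).trace / q) * (f x * ee (-(w β * mt (cur (y0 + M.mulVec x))).trace))
    rw [← hZ, hphase]
    have h3 : (β * L x).trace = ∑ k, (β * sb m k).trace * x k := by
      simp only [L]
      rw [Finset.mul_sum, Matrix.trace_sum]
      refine Finset.sum_congr rfl fun k _ => ?_
      rw [mul_smul_comm, Matrix.trace_smul, smul_eq_mul, mul_comm]
    have h7 : ee ((β * α0).trace / q + -((β * α0).trace / q + ∑ k, (β * sb m k).trace * x k)) =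
        Complex.exp (-(2 * Real.pi * (∑ k, (β * sb m k).trace * x k) : ℝ) * Complex.I) := by
      simp only [ee]
      congr 1
      push_cast
      ring
    rw [h3, mul_left_comm, ← hee, h7, mul_comm (f x)]
  -- the two lattices
  let eD : (Fin m × Fin m → ℤ) ≃ ZM m :=
    { toFun := fun k => Matrix.of fun i j => k (j, i)
      invFun := fun β p => β p.2 p.1
      left_inv := fun k => rfl
      right_inv := fun β => rfl }
  have hcoef2 : ∀ k : Fin m × Fin m → ℤ, ∫ x : Fin m × Fin m → ℝ,
      Complex.exp (-(2 * Real.pi * (∑ i, (k i : ℝ) * x i) : ℝ) * Complex.I) * f x =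
      psq q (cQ q (eD k) * c) * ((|M.det|⁻¹ : ℝ) * ft Φ (w (cR (eD k)))) := by
    intro k
    have h1 := hcoef (cR (eD k))
    have h2 : ∀ i, (cR (eD k) * sb m i).trace = (k i : ℝ) := fun i => by
      rw [sb_trace]
      rfl
    simp only [h2] at h1
    rw [h1, ← ha0, ← (hQm (eD k) a0).1, hPe, hα0, cR_trace]
  constructor
  · rw [← eD.summable_iff]
    have h1 := (poi_decay f hfs hfc).mul_left |M.det|
    refine h1.congr fun k => ?_
    rw [hcoef2, norm_mul, hPn, one_mul, norm_mul, Complex.norm_real, Real.norm_eq_abs,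
      abs_of_pos (inv_pos.2 hdet0), mul_inv_cancel_left₀ hdet0.ne']
    rfl
  · let eO : (Fin m × Fin m → ℤ) → ZM m := fun n =>
      a0 + (q : ℤ) • Matrix.of fun i j => n (i, j)
    have hqZ : (q : ℤ) ≠ 0 := by exact_mod_cast (by omega : q ≠ 0)
    have heO : Function.Injective eO := by
      intro n n' hnn
      have h1 := add_left_cancel hnn
      funext p
      have h2 := congrFun (congrFun h1 p.1) p.2
      rw [Matrix.smul_apply, Matrix.smul_apply, smul_eq_mul, smul_eq_mul] at h2
      exact mul_left_cancel₀ hqZ h2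
    have hcast : ∀ n : Fin m × Fin m → ℤ, cR (eO n) = α0 + (q : ℝ) • L (fun i => (n i : ℝ)) := by
      intro n
      simp only [L]
      rw [sb_sum]
      ext i j
      simp [eO, cR, hα0]
    have h1 : ∑' α : ZM m, (if cQ q α = c then Φ (kk r h (cR α) g) else 0) =
        ∑' n : Fin m × Fin m → ℤ, f (fun i => (n i : ℝ)) := by
      rw [← heO.tsum_eq]
      · refine tsum_congr fun n => ?_
        have h2 : cQ q (eO n) = c := by
          have h3 : cQ q ((q : ℤ) • (Matrix.of fun i j => n (i, j) : ZM m)) = 0 :=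
            (hQk _).2 ⟨_, rfl⟩
          change cQ q (a0 + (q : ℤ) • (Matrix.of fun i j => n (i, j) : ZM m)) = c
          rw [(hQm _ _).2, h3, add_zero, ha0]
        rw [if_pos h2, hft, hcast]
        rfl
      · intro α hα
        have h2 : cQ q α = c := by
          by_contra hcon
          exact hα (if_neg hcon)
        have h4 : cQ q (α - a0) = 0 := by
          have h5 := (hQm (α - a0) a0).2
          rw [sub_add_cancel, h2, ha0] at h5
          exact (right_eq_add.1 h5)
        obtain ⟨w', hw'⟩ := (hQk _).1 h4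
        refine ⟨fun p => w' p.1 p.2, ?_⟩
        change a0 + (q : ℤ) • w' = α
        rw [← hw', add_sub_cancel]
    rw [h1, poi_gen f hfs hfc, ← eD.tsum_eq, ← tsum_mul_left]
    refine tsum_congr fun k => ?_
    rw [hcoef2, hdet, inv_div, mul_left_comm]

end Pool.Agent.H27.L1.H43.GZ
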